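import Pool.Agent.H629.TA.Stm

set_option autoImplicit false

/-! First moments of the functionals (subtask E1 of project TA). -/

open Finset

namespace Pool.Agent.H84.TA.E1

open Pool.Agent.H629.TA

theorem wt_pos (m : ℕ) (δ : ℝ) (hδ : 0 < δ) (h : Hist m) (k a : ℕ) : 0 < wt m δ h k a := by
  unfold wt
  positivity

theorem S2_nonneg (m : ℕ) (δ : ℝ) (k : ℕ) (h : Hist m) : 0 ≤ S2 m δ k h :=
  sum_nonneg fun _ _ => sq_nonneg _

theorem S3_nonneg (m : ℕ) (δ : ℝ) (hδ : 0 < δ) (k : ℕ) (h : Hist m) : 0 ≤ S3 m δ k h := by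
  apply sum_nonneg
  intro a _
  have := wt_pos m δ hδ h k a
  positivity

theorem WW_nonneg (m : ℕ) (δ : ℝ) (hδ : 0 < δ) (k : ℕ) (h : Hist m) : 0 ≤ WW m δ k h := by
  unfold WW
  apply mul_nonneg (by norm_num)
  apply sum_nonneg
  intro a _
  apply sum_nonneg
  intro b _
  have := wt_pos m δ hδ h k a
  have := wt_pos m δ hδ h k b
  positivity

theorem VV_nonneg (m : ℕ) (δ : ℝ) (hδ : 0 < δ) (k : ℕ) (h : Hist m) : 0 ≤ VV m δ k h := by
  unfold VV
  apply sum_nonneg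
  intro a _
  apply sum_nonneg
  intro b _
  have := wt_pos m δ hδ h k a
  have := wt_pos m δ hδ h k b
  positivity

theorem nat_fac (n : ℕ) : (0 : ℝ) ≤ (n : ℝ) * ((n : ℝ) - 1) := by
  rcases Nat.eq_zero_or_pos n with h | h
  · rw [h]
    simp
  · have : (1 : ℝ) ≤ n := by exact_mod_cast h
    apply mul_nonneg
    · linarith
    · linarith

theorem QQ_nonneg (m : ℕ) (δ : ℝ) (hδ : 0 < δ) (k : ℕ) (h : Hist m) : 0 ≤ QQ m δ k h := by
  unfold QQ
  apply sum_nonneg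
  intro a _
  apply sum_nonneg
  intro b _
  have h1 := wt_pos m δ hδ h k a
  have h2 := wt_pos m δ hδ h k b
  exact mul_nonneg (nat_fac _) (mul_nonneg h1.le h2.le)

theorem chi_pos (m : ℕ) (δ : ℝ) (hm : 2 ≤ m) (hδ : 0 < δ) : 0 < chi m δ := by
  unfold chi
  have : (2 : ℝ) ≤ m := by exact_mod_cast hm
  positivity

theorem chi_lt (m : ℕ) (δ : ℝ) (hm : 2 ≤ m) (hδ : 0 < δ) : chi m δ < 1 / 2 := by
  unfold chi
  have : (2 : ℝ) ≤ m := by exact_mod_cast hm
  rw [div_lt_div_iff₀ (by positivity) (by norm_num)]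
  linarith

/-- the general recursion -/
theorem rec (hER : S_ER) (hRC : S_RC) (m : ℕ) (δ : ℝ) (hm : 1 ≤ m) (hδ : 0 < δ)
    (F : ℕ → Hist m → ℝ) (a : ℕ → ℝ) (g : ℕ → Hist m → ℝ) (τ t K C : ℝ) (hτ : 0 ≤ τ)
    (hτt : τ < t) (hK : 0 ≤ K) (hC : 0 ≤ C) (hF : ∀ k h, 0 ≤ F k h)
    (hstep : ∀ (k : ℕ) (h : Hist m), 2 ≤ k → Valid m h k →
      step m δ k (F (k + 1)) h ≤ a k * F k h + g k h)
    (ha : ∀ k : ℕ, 2 ≤ k → a k ≤ 1 + τ / k + K / (k : ℝ) ^ 2)
    (hg : ∀ i : ℕ, Ex m δ i (g (i + 2)) ≤ C * ((i + 2 : ℕ) : ℝ) ^ (t - 1)) :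
    ∃ C' : ℝ, 0 ≤ C' ∧ ∀ i : ℕ, Ex m δ i (F (i + 2)) ≤ C' * (i + 2 : ℝ) ^ t := by
  have hE := hER m δ hm hδ
  have h0 : 0 ≤ F 2 (fun _ _ => 0) := hF 2 _
  obtain ⟨C', hC', hu⟩ := hRC τ t K (C + F 2 (fun _ _ => 0)) hτ hτt hK (by positivity)
  refine ⟨C', hC', ?_⟩
  have hnn : ∀ i k, 0 ≤ Ex m δ i (F k) := by
    intro i k
    obtain ⟨e1, -, -, e4, -⟩ := hE i
    have h1 := e4 (fun _ => 0) (F k) (fun h _ => hF k h)
    rw [e1] at h1
    exact h1
  have h1 := hu (fun k => Ex m δ (k - 2) (F k)) (fun k => hnn _ _) (by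
    change F 2 (fun _ _ => 0) ≤ _
    linarith) (by
    intro k hk
    obtain ⟨i, rfl⟩ := Nat.exists_eq_add_of_le' hk
    obtain ⟨e1, e2, e3, e4, -⟩ := hE i
    have h2 : Ex m δ (i + 2 + 1 - 2) (F (i + 2 + 1)) = Ex m δ i (step m δ (i + 2) (F (i + 3))) := rfl
    have h3 : i + 2 - 2 = i := by omega
    simp only [h2, h3]
    have h4 := e4 (step m δ (i + 2) (F (i + 3))) (fun h => a (i + 2) * F (i + 2) h + g (i + 2) h)
      (fun h hv => hstep (i + 2) h (by omega) hv)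
    rw [e2 (fun h => a (i + 2) * F (i + 2) h) (g (i + 2)), e3 (a (i + 2)) (F (i + 2))] at h4
    have h5 := mul_le_mul_of_nonneg_right (ha (i + 2) (by omega)) (hnn i (i + 2))
    have h6 := hg i
    have h7 : 0 ≤ F 2 (fun _ _ => 0) * ((i + 2 : ℕ) : ℝ) ^ (t - 1) := by positivity
    have h8 : (C + F 2 (fun _ _ => 0)) * ((i + 2 : ℕ) : ℝ) ^ (t - 1) =
      C * ((i + 2 : ℕ) : ℝ) ^ (t - 1) + F 2 (fun _ _ => 0) * ((i + 2 : ℕ) : ℝ) ^ (t - 1) := by ring
    rw [h8]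
    linarith)
  intro i
  have h2 := h1 (i + 2) (by omega)
  have h3 : i + 2 - 2 = i := by omega
  simp only [h3] at h2
  push_cast at h2
  exact h2

theorem t_E1 : S_ER → S_SR → S_P3 → S_P2 → S_GF → S_RC → S_E1 := by
  intro hER _ hP3 hP2 hGF hRC m δ hm hδ
  have hm1 : 1 ≤ m := by omega
  obtain ⟨C3, hC3, h3⟩ := hP3 m δ hm hδ
  have h2 := hP2 m δ hm hδ
  obtain ⟨K, c, hK, hc, hG⟩ := hGF m δ hm1 hδ
  have hχ0 := chi_pos m δ hm hδ
  have hχ := chi_lt m δ hm hδ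
  have hE := hER m δ hm1 hδ
  have hk0 : ∀ i : ℕ, (0 : ℝ) < ((i + 2 : ℕ) : ℝ) := fun i => by positivity
  have htot : ∀ i : ℕ, c * ((i + 2 : ℕ) : ℝ) ≤ tot m δ (i + 2) := fun i => (hG (i + 2) (by omega)).1
  have htp : ∀ i : ℕ, 0 < tot m δ (i + 2) := fun i => (mul_pos hc (hk0 i)).trans_le (htot i)
  -- S3
  obtain ⟨A3, hA3, hs3⟩ := rec hER hRC m δ hm1 hδ (S3 m δ) (fun k => (1 + 3 / tot m δ k) ^ m)
    (fun _ _ => C3) (3 * chi m δ) (tt m δ) K C3 (by positivity) (by unfold tt; linarith) hK hC3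
    (fun k h => S3_nonneg m δ hδ k h) (fun k h hk hv => (h3 k h hk hv).1)
    (fun k hk => by
      have := (hG k hk).2.2.1 3 (by norm_num)
      exact_mod_cast this)
    (fun i => by
      rw [(hE i).1]
      have h1 : (1 : ℝ) ≤ ((i + 2 : ℕ) : ℝ) ^ (tt m δ - 1) := by
        apply Real.one_le_rpow
        · push_cast
          have : (0 : ℝ) ≤ i := by positivity
          linarith
        · unfold tt
          linarith
      nlinarith)
  -- VV
  obtain ⟨AV, hAV, hsV⟩ := rec hER hRC m δ hm1 hδ (VV m δ) (fun k => (1 + 4 / tot m δ k) ^ m)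
    (fun k h => C3 * (S3 m δ k h / tot m δ k)) (4 * chi m δ) (tt m δ) K (C3 * A3 / c)
    (by positivity) (by unfold tt; linarith) hK (by positivity)
    (fun k h => VV_nonneg m δ hδ k h) (fun k h hk hv => (h3 k h hk hv).2.1)
    (fun k hk => by
      have := (hG k hk).2.2.1 4 (by norm_num)
      exact_mod_cast this)
    (fun i => by
      have h4 : (fun h => C3 * (S3 m δ (i + 2) h / tot m δ (i + 2))) =
          fun h => (C3 / tot m δ (i + 2)) * S3 m δ (i + 2) h := by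
        funext h
        ring
      rw [h4, (hE i).2.2.1]
      have h5 := hs3 i
      have h6 : C3 / tot m δ (i + 2) ≤ C3 / (c * ((i + 2 : ℕ) : ℝ)) :=
        div_le_div_of_nonneg_left hC3 (mul_pos hc (hk0 i)) (htot i)
      have h7 : (0 : ℝ) ≤ A3 * (i + 2 : ℝ) ^ tt m δ := by positivity
      calc C3 / tot m δ (i + 2) * Ex m δ i (S3 m δ (i + 2))
          ≤ C3 / tot m δ (i + 2) * (A3 * (i + 2 : ℝ) ^ tt m δ) :=
            mul_le_mul_of_nonneg_left h5 (div_nonneg hC3 (htp i).le)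
        _ ≤ C3 / (c * ((i + 2 : ℕ) : ℝ)) * (A3 * (i + 2 : ℝ) ^ tt m δ) :=
            mul_le_mul_of_nonneg_right h6 h7
        _ = C3 * A3 / c * ((i + 2 : ℕ) : ℝ) ^ (tt m δ - 1) := by
            rw [Real.rpow_sub_one (hk0 i).ne']
            have := (hk0 i).ne'
            push_cast at this ⊢
            field_simp)
  -- QQ
  obtain ⟨AQ, hAQ, hsQ⟩ := rec hER hRC m δ hm1 hδ (QQ m δ) (fun k => (1 + 2 / tot m δ k) ^ m)
    (fun k h => C3 * (S3 m δ k h / tot m δ k ^ 2)) (2 * chi m δ) (tt m δ - 1) K (C3 * A3 / c ^ 2)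
    (by positivity) (by unfold tt; linarith) hK (by positivity)
    (fun k h => QQ_nonneg m δ hδ k h) (fun k h hk hv => (h3 k h hk hv).2.2)
    (fun k hk => by
      have := (hG k hk).2.2.1 2 (by norm_num)
      exact_mod_cast this)
    (fun i => by
      have h4 : (fun h => C3 * (S3 m δ (i + 2) h / tot m δ (i + 2) ^ 2)) =
          fun h => (C3 / tot m δ (i + 2) ^ 2) * S3 m δ (i + 2) h := by
        funext h
        ring
      rw [h4, (hE i).2.2.1]
      have h5 := hs3 i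
      have h6 : C3 / tot m δ (i + 2) ^ 2 ≤ C3 / (c * ((i + 2 : ℕ) : ℝ)) ^ 2 :=
        div_le_div_of_nonneg_left hC3 (pow_pos (mul_pos hc (hk0 i)) 2)
          (pow_le_pow_left₀ (mul_pos hc (hk0 i)).le (htot i) 2)
      have h7 : (0 : ℝ) ≤ A3 * (i + 2 : ℝ) ^ tt m δ := by positivity
      calc C3 / tot m δ (i + 2) ^ 2 * Ex m δ i (S3 m δ (i + 2))
          ≤ C3 / tot m δ (i + 2) ^ 2 * (A3 * (i + 2 : ℝ) ^ tt m δ) :=
            mul_le_mul_of_nonneg_left h5 (div_nonneg hC3 (pow_pos (htp i) 2).le)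
        _ ≤ C3 / (c * ((i + 2 : ℕ) : ℝ)) ^ 2 * (A3 * (i + 2 : ℝ) ^ tt m δ) :=
            mul_le_mul_of_nonneg_right h6 h7
        _ = C3 * A3 / c ^ 2 * ((i + 2 : ℕ) : ℝ) ^ (tt m δ - 1 - 1) := by
            rw [Real.rpow_sub_one (hk0 i).ne', Real.rpow_sub_one (hk0 i).ne']
            have := (hk0 i).ne'
            push_cast at this ⊢
            field_simp)
  -- S2
  obtain ⟨A2, hA2, hs2⟩ := rec hER hRC m δ hm1 hδ (S2 m δ) (fun k => al m δ k)
    (fun _ _ => m + (m + δ) ^ 2) (2 * chi m δ) 1 K (m + (m + δ) ^ 2)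
    (by positivity) (by linarith) hK (by positivity)
    (fun k h => S2_nonneg m δ k h) (fun k h hk hv => ((h2 k h hk hv).1).le)
    (fun k hk => (hG k hk).2.2.2.2.1)
    (fun i => by
      rw [(hE i).1, sub_self, Real.rpow_zero, mul_one])
  -- WW
  obtain ⟨AW, hAW, hsW⟩ := rec hER hRC m δ hm1 hδ (WW m δ) (fun k => al m δ k)
    (fun k h => be m δ k * S2 m δ k h + (m + δ) * m) (2 * chi m δ) 1 K (K * A2 + (m + δ) * m)
    (by positivity) (by linarith) hK (by positivity)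
    (fun k h => WW_nonneg m δ hδ k h) (fun k h hk hv => by
      have := ((h2 k h hk hv).2.1).le
      linarith)
    (fun k hk => (hG k hk).2.2.2.2.1)
    (fun i => by
      rw [(hE i).2.1 (fun h => be m δ (i + 2) * S2 m δ (i + 2) h) (fun _ => (m + δ) * m),
        (hE i).2.2.1, (hE i).1, sub_self, Real.rpow_zero, mul_one]
      have h5 := hs2 i
      rw [Real.rpow_one] at h5
      have h6 := (hG (i + 2) (by omega)).2.2.2.2.2.2.2
      have h7 := (hG (i + 2) (by omega)).2.2.2.2.2.2.1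
      have h8 : be m δ (i + 2) * Ex m δ i (S2 m δ (i + 2)) ≤ K * A2 := by
        calc be m δ (i + 2) * Ex m δ i (S2 m δ (i + 2))
            ≤ be m δ (i + 2) * (A2 * (i + 2 : ℝ)) := mul_le_mul_of_nonneg_left h5 h7
          _ ≤ K / ((i + 2 : ℕ) : ℝ) * (A2 * (i + 2 : ℝ)) :=
              mul_le_mul_of_nonneg_right h6 (by positivity)
          _ = K * A2 := by
              have := (hk0 i).ne'
              push_cast at this ⊢
              field_simp
      linarith)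
  refine ⟨A3 + AV + AQ + A2 + AW, by positivity, fun i => ?_⟩
  have p0 : (0 : ℝ) ≤ (i + 2 : ℝ) := by positivity
  have p1 : (0 : ℝ) ≤ (i + 2 : ℝ) ^ tt m δ := by positivity
  have p2 : (0 : ℝ) ≤ (i + 2 : ℝ) ^ (tt m δ - 1) := by positivity
  have q2 := hs2 i
  have qW := hsW i
  rw [Real.rpow_one] at q2 qW
  refine ⟨q2.trans ?_, (hs3 i).trans ?_, (hsV i).trans ?_, (hsQ i).trans ?_, qW.trans ?_⟩
  · exact mul_le_mul_of_nonneg_right (by linarith) p0
  · exact mul_le_mul_of_nonneg_right (by linarith) p1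
  · exact mul_le_mul_of_nonneg_right (by linarith) p1
  · exact mul_le_mul_of_nonneg_right (by linarith) p2
  · exact mul_le_mul_of_nonneg_right (by linarith) p0

end Pool.Agent.H84.TA.E1
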